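import Pool.Agent.Helper84.Kos.Goals2

set_option autoImplicit false

/-! Packet G2: the lower central series acts trivially on polynomial functions. -/

namespace Pool.Agent.Helper28.Kos

open Pool.Agent.Helper84.Kos

variable {G : Type} [Group G]

theorem isPol_add : ∀ (d : ℕ) (f g : G → ℚ), IsPol d f → IsPol d g → IsPol d (fun x => f x + g x)
  | 0, f, g, hf, hg => fun x => by
      show f x + g x = 0
      rw [hf x, hg x, add_zero]
  | d + 1, f, g, hf, hg => fun h => by
      have := isPol_add d _ _ (hf h) (hg h)
      have e : (fun x => (f (x * h) + g (x * h)) - (f x + g x)) =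
          fun x => (f (x * h) - f x) + (g (x * h) - g x) := by
        funext x; ring
      show IsPol d (fun x => (f (x * h) + g (x * h)) - (f x + g x))
      rw [e]
      exact this

theorem isPol_smul (r : ℚ) : ∀ (d : ℕ) (f : G → ℚ), IsPol d f → IsPol d (fun x => r * f x)
  | 0, f, hf => fun x => by
      show r * f x = 0
      rw [hf x, mul_zero]
  | d + 1, f, hf => fun h => by
      have := isPol_smul r d _ (hf h)
      have e : (fun x => r * f (x * h) - r * f x) = fun x => r * (f (x * h) - f x) := by
        funext x; ring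
      show IsPol d (fun x => r * f (x * h) - r * f x)
      rw [e]
      exact this

theorem isPol_zero : ∀ (d : ℕ), IsPol d (fun _ : G => (0 : ℚ))
  | 0 => fun _ => rfl
  | d + 1 => fun h => by
      have e : (fun _ : G => (0 : ℚ) - 0) = fun _ => 0 := by funext x; ring
      show IsPol d (fun _ : G => (0 : ℚ) - 0)
      rw [e]
      exact isPol_zero d

theorem isPol_succ : ∀ (d : ℕ) (f : G → ℚ), IsPol d f → IsPol (d + 1) f
  | 0, f, hf => fun h x => by
      show f (x * h) - f x = 0
      rw [hf, hf, sub_zero]
  | d + 1, f, hf => fun h => isPol_succ d _ (hf h)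

theorem isPol_mul_right (d : ℕ) (f : G → ℚ) (hf : IsPol d f) (g : G) :
    IsPol d (fun x => f (x * g)) := by
  cases d with
  | zero => exact fun x => hf (x * g)
  | succ d =>
    have := isPol_add (d + 1) _ _ hf (isPol_succ d _ (hf g))
    have e : (fun x => f x + (f (x * g) - f x)) = fun x => f (x * g) := by funext x; ring
    rw [e] at this
    exact this

/-- the space of polynomial functions -/
def PolS (G : Type) [Group G] (d : ℕ) : Submodule ℚ (G → ℚ) where
  carrier := {f | IsPol d f}
  add_mem' := fun {f g} hf hg => isPol_add d f g hf hg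
  zero_mem' := isPol_zero d
  smul_mem' := fun r f hf => isPol_smul r d f hf

/-- the right translations -/
def trans (G : Type) [Group G] (d : ℕ) : G →* Module.End ℚ (PolS G d) where
  toFun g :=
    { toFun := fun f => ⟨fun x => (f : G → ℚ) (x * g), isPol_mul_right d f.1 f.2 g⟩
      map_add' := fun _ _ => rfl
      map_smul' := fun _ _ => rfl }
  map_one' := by
    ext f x
    show (f : G → ℚ) (x * 1) = (f : G → ℚ) x
    rw [mul_one]
  map_mul' g h := by
    ext f x
    show (f : G → ℚ) (x * (g * h)) = (f : G → ℚ) (x * g * h)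
    rw [mul_assoc]

theorem trans_apply (d : ℕ) (g : G) (f : PolS G d) (x : G) :
    ((trans G d g f : PolS G d) : G → ℚ) x = (f : G → ℚ) (x * g) := rfl

theorem trans_sub_pow (d : ℕ) (g : G) : ∀ (j : ℕ) (f : PolS G d), IsPol j (f : G → ℚ) →
    ((trans G d g - 1) ^ j) f = 0
  | 0, f, hf => by
      apply Subtype.ext
      funext x
      exact hf x
  | j + 1, f, hf => by
      rw [pow_succ, Module.End.mul_apply]
      exact trans_sub_pow d g j ((trans G d g - 1) f) (hf g)

theorem trans_nil (d : ℕ) (g : G) : IsNilpotent (trans G d g - 1) :=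
  ⟨d, LinearMap.ext fun f => trans_sub_pow d g d f f.2⟩

theorem stmtG2 (h1 : StmtG1) : StmtG2 := by
  intro k c hk hB G _ hE a b hab d f hf g hg x
  have h := h1 k c hk hB G hE a b hab (Module.End ℚ (PolS G d)) (trans G d)
    (trans_nil d a) (trans_nil d b) g hg
  have h2 := congrArg (fun T : Module.End ℚ (PolS G d) => ((T ⟨f, hf⟩ : PolS G d) : G → ℚ) x) h
  exact h2

end Pool.Agent.Helper28.Kos
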